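import Pool.Agent.H83.SG.Main

/-! Sparse random geometric graphs on spheres of dimension much larger than `log³ n` are
indistinguishable from the binomial random graph with the same edge probability `c / n`. -/

set_option autoImplicit false

open MeasureTheory Filter Topology

namespace Pool.Agent.Results.MP_4da2d5_pr.SphereGraphs

open Pool.Agent.H83.SG

theorem result (c : ℝ) (hc : 0 < c) (d : ℕ → ℕ)
    (hd : Tendsto (fun n : ℕ => (d n : ℝ) / Real.log n ^ 3) atTop atTop) :
    (∀ᶠ n : ℕ in atTop, ∃ t : ℝ, edgeProb (d n) t = c / n) ∧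
    ∀ t : ℕ → ℝ, (∀ᶠ n : ℕ in atTop, edgeProb (d n) (t n) = c / n) →
      Tendsto (fun n : ℕ => tvDist (rgg n (d n) (t n))
        (SimpleGraph.binomialRandom (Fin n) (Set.projIcc 0 1 zero_le_one (c / n))))
        atTop (𝓝 0) :=
  main c hc d hd

end Pool.Agent.Results.MP_4da2d5_pr.SphereGraphs
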